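import Mathlib
import Pool.Agent.P.MP_de9ecd_al.Defs
import Pool.Agent.P.MP_de9ecd_al.Primes

set_option autoImplicit false

namespace Pool.Agent.Results.MP_de9ecd_al.Explicit

open Pool.Agent.P.MP_de9ecd_al

/-- An explicit pair of generators of `Sym(n)` whose Cayley graph has girth at least
`sqrt (n log n) / 100` for all large `n`. -/
theorem result : ∀ᶠ n : ℕ in Filter.atTop, ∃ b : Equiv.Perm (Fin n),
    (∀ x : Fin n, (b x : ℕ) = gen n x) ∧
    Subgroup.closure ({finRotate n, b} : Set (Equiv.Perm (Fin n))) = ⊤ ∧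
    ((⌈√((n : ℝ) * Real.log n) / 100⌉₊ : ℕ) : ℕ∞) ≤
      (SimpleGraph.mulCayley ({finRotate n, b} : Set (Equiv.Perm (Fin n)))).egirth := by
  filter_upwards [main, Filter.eventually_ge_atTop 2] with n h hn
  obtain ⟨b, hb, hc⟩ := exists_perm hn
  refine ⟨b, hb, hc, SimpleGraph.le_egirth.2 fun u p hp => ?_⟩
  obtain ⟨w, h1, h2, h3, -⟩ := exists_word (finRotate n) b p hp.isTrail
  have h4 := hp.three_le_length
  have h5 := h b hb w (by rintro rfl; simp at h1; omega) h3 (by simpa using h2)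
  rw [h1] at h5
  exact_mod_cast Nat.ceil_le.2 (by linarith)

end Pool.Agent.Results.MP_de9ecd_al.Explicit
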