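import Mathlib
import Pool.Agent.P.MP_de9ecd_al.LB.Fin
import Pool.Agent.P.MP_de9ecd_al.LB.THANG
import Pool.Agent.P.MP_de9ecd_al.LB.TABS
import Pool.Agent.P.MP_de9ecd_al.LB.TINJ2
import Pool.Agent.P.MP_de9ecd_al.LB.TROUND

set_option autoImplicit false

namespace Pool.Agent.Results.MP_de9ecd_al.LawPoly

open Pool.Agent.P.MP_de9ecd_al.Law

/-- For all large `n`, every law of `Sym(n)` has length greater than `n ^ (12 / 11) / 3000`. -/
theorem result : ∀ᶠ n : ℕ in Filter.atTop, ∀ (k : ℕ) (w : FreeGroup (Fin k)), w ≠ 1 →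
    (∀ f : Fin k → Equiv.Perm (Fin n), FreeGroup.lift f w = 1) →
    (n : ℝ) ^ (12 / 11 : ℝ) / 3000 < w.toWord.length := by
  obtain ⟨B, hB⟩ : ∃ B : ℕ, B = 2 ^ 11 := ⟨_, rfl⟩
  have hB1 : 1 < B := hB ▸ Nat.one_lt_pow (by norm_num) (by norm_num)
  filter_upwards [Filter.eventually_ge_atTop (B ^ 128)] with n hn k w hw hf
  have hn0 : n ≠ 0 := (lt_of_lt_of_le (Nat.pow_pos (by omega)) hn).ne'
  have hs : 128 ≤ Nat.log B n := Nat.le_log_of_pow_le hB1 hn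
  have h1 := Nat.pow_log_le_self B hn0
  have h2 := Nat.lt_pow_succ_log_self hB1 n
  generalize Nat.log B n = s at hs h1 h2
  rw [hB, ← pow_mul] at h1 h2
  by_contra hc
  have hc' : (w.norm : ℝ) ≤ (n : ℝ) ^ (12 / 11 : ℝ) / 3000 := not_lt.1 hc
  have hn1 : (0 : ℝ) < n := Nat.cast_pos.2 (Nat.pos_of_ne_zero hn0)
  have h3 : (n : ℝ) ^ (12 / 11 : ℝ) = n * (n : ℝ) ^ (1 / 11 : ℝ) := by
    rw [show (12 / 11 : ℝ) = 1 + 1 / 11 by norm_num, Real.rpow_add hn1, Real.rpow_one]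
  have h4 : (n : ℝ) ^ (1 / 11 : ℝ) ≤ 2 ^ (s + 1) := by
    have e : (n : ℝ) ≤ (2 ^ (s + 1)) ^ (11 : ℕ) := by
      rw [← pow_mul, mul_comm]
      exact_mod_cast h2.le
    refine (Real.rpow_le_rpow hn1.le e (by norm_num)).trans (le_of_eq ?_)
    rw [← Real.rpow_natCast, ← Real.rpow_mul (by positivity)]
    norm_num
  have h5 := mul_le_mul_of_nonneg_left h4 hn1.le
  have h6 : (0 : ℝ) ≤ 2 ^ s * n := by positivity
  obtain ⟨f, hne⟩ := law_nat' (s_ROUND s_HANG s_ABS s_INJ') hs h1 h2 hw (by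
    have : (1400 : ℝ) * w.norm ≤ 2 ^ s * n := by
      rw [pow_succ] at h5
      linarith
    exact_mod_cast this)
  exact hne (hf f)

end Pool.Agent.Results.MP_de9ecd_al.LawPoly
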