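import Mathlib
import Pool.Agent.P.MP_de9ecd_al.RSMain

set_option autoImplicit false

namespace Pool.Agent.Results.MP_de9ecd_al.RandomShort

open Pool.Agent.P.MP_de9ecd_al.RS

/-- For random generators the Cayley graph of `Sym(n)` has girth at most `n (log log n) ^ 3` with
probability tending to one, uniformly in the number `k ≥ 2` of generators. -/
theorem result : ∀ ε : ℝ, 0 < ε → ∀ᶠ n : ℕ in Filter.atTop, ∀ k : ℕ, 2 ≤ k →
    (Nat.card {x : Fin k → Equiv.Perm (Fin n) //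
      ((⌊(n : ℝ) * Real.log (Real.log n) ^ 3⌋₊ : ℕ) : ℕ∞) <
        (SimpleGraph.mulCayley (Set.range x)).egirth} : ℝ) ≤ ε * (n.factorial : ℝ) ^ k := by
  intro ε hε
  obtain ⟨K, hK⟩ := exists_nat_gt (10 / ε)
  have hK0 : (0 : ℝ) < K := (by positivity : (0 : ℝ) < 10 / ε).trans hK
  filter_upwards [exists_param (K := K) (by exact_mod_cast hK0)] with n hn k hk
  obtain ⟨D, s, u, d, J, h1, h2, h3, h4, h5, h6, h7, h8⟩ := hn
  obtain ⟨m, rfl⟩ := Nat.exists_eq_add_of_le' hk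
  classical
  have e1 := card_tuples (G := Equiv.Perm (Fin n))
    ((⌊(n : ℝ) * Real.log (Real.log n) ^ 3⌋₊ : ℕ) : ℕ∞) m
  have e2 := card_bad (α := Fin n) (K := K) (s := s) (u := u) (d := d) (J := J) h1 (by simpa)
    h3 (by simpa) h5 (by simpa) (by simpa) (Finset.univ.filter fun p =>
      ((⌊(n : ℝ) * Real.log (Real.log n) ^ 3⌋₊ : ℕ) : ℕ∞) <
        (SimpleGraph.mulCayley (Set.range ![p.1, p.2])).egirth) fun p hp =>
      lt_of_le_of_lt (by rw [Fintype.card_fin]; exact_mod_cast h8) (Finset.mem_filter.1 hp).2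
  rw [Fintype.card_perm, Fintype.card_fin] at e1
  rw [Fintype.card_fin] at e2
  have e3 := (Nat.mul_le_mul_left K e1).trans
    ((mul_assoc _ _ _).ge.trans (Nat.mul_le_mul_right _ e2))
  generalize Nat.card _ = c at e3 ⊢
  have e4 : (K : ℝ) * c ≤ 10 * (n.factorial : ℝ) ^ 2 * (n.factorial : ℝ) ^ m := by
    exact_mod_cast e3
  rw [div_lt_iff₀ hε] at hK
  refine le_of_mul_le_mul_left (e4.trans ?_) hK0
  rw [mul_assoc, ← pow_add, add_comm 2, ← mul_assoc]
  gcongr

end Pool.Agent.Results.MP_de9ecd_al.RandomShort
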