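import Mathlib
import Pool.Agent.P.MP_de9ecd_al.Syl.Final

set_option autoImplicit false

namespace Pool.Agent.Results.MP_de9ecd_al.SylowGirth

open Pool.Agent.P.MP_de9ecd_al.Syl

/-- Random tuples of a Sylow `p`-subgroup `P` of `Sym(N)` satisfy no nontrivial relation of length
at most `N ^ (1 / (100 log p))`, and their Cayley graph has larger girth, with probability tending
to one. -/
theorem result : ∀ (k : ℕ) (ε : ℝ), 0 < ε → ∃ n₀ : ℕ, ∀ p : ℕ, p.Prime → ∀ N : ℕ, p ^ n₀ ≤ N →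
    ∀ P : Sylow p (Equiv.Perm (Fin N)),
      (Nat.card {g : Fin k → P //
        (∃ w : FreeGroup (Fin k), w ≠ 1 ∧ (w.norm : ℝ) ≤ (N : ℝ) ^ (1 / (100 * Real.log p)) ∧
          FreeGroup.lift g w = 1) ∨
        (SimpleGraph.mulCayley (Set.range g)).egirth ≤
          ((⌊(N : ℝ) ^ (1 / (100 * Real.log p))⌋₊ : ℕ) : ℕ∞)} : ℝ) ≤
        ε * (Nat.card P : ℝ) ^ k := by
  intro k ε hε
  obtain ⟨m, hm⟩ := exists_pow_lt_of_lt_one hε (show (1 / 2 : ℝ) < 1 by norm_num)
  refine ⟨40 * (m + k + 7), fun p hp N hN P => ?_⟩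
  have : Fact p.Prime := ⟨hp⟩
  have hN0 : N ≠ 0 := (lt_of_lt_of_le (pow_pos hp.pos _) hN).ne'
  have h1 : p ^ Nat.log p N ≤ N := Nat.pow_log_le_self p hN0
  have h2 : N < p ^ (Nat.log p N + 1) := Nat.lt_pow_succ_log_self hp.one_lt N
  have h3 : 40 * (m + k + 7) ≤ Nat.log p N := Nat.le_log_of_pow_le hp.one_lt hN
  generalize Nat.log p N = n at h1 h2 h3
  have h4 := sylow_count (s := n / 40) (k := k) h1 h2 (by omega) P
  have h5 := rpow_le hp.two_le h2 (by omega)
  have h6 : ⌊(N : ℝ) ^ (1 / (100 * Real.log p))⌋₊ ≤ 2 ^ (n / 40) :=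
    Nat.floor_le_of_le (by exact_mod_cast h5)
  refine le_trans (Nat.cast_le.2 ?_) (h4.trans ?_)
  · refine Nat.card_le_card_of_injective (Subtype.map id fun g hg => ?_)
      (Subtype.map_injective _ Function.injective_id)
    rcases hg with ⟨w, a1, a2, a3⟩ | hg
    · exact ⟨w, a1, by exact_mod_cast a2.trans h5, a3⟩
    · exact word_of_egirth g (hg.trans (Nat.cast_le.2 h6))
  · refine mul_le_mul_of_nonneg_right (le_trans ?_ hm.le) (by positivity)
    refine pow_le_pow_of_le_one (by norm_num) (by norm_num) ?_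
    exact le_trans (by omega) Nat.lt_two_pow_self.le

end Pool.Agent.Results.MP_de9ecd_al.SylowGirth
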